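import Pool.Agent.R385.TA.Exp
import Pool.Agent.H305R2.MertensE

/-!
# The zeta function at the point `1`
-/

set_option autoImplicit false

namespace Pool.Agent.R385.TA

open Filter Topology MeasureTheory Finset Pool.Agent.W350.Edge Pool.Agent.R385.MC Polynomial

/-- The coefficients of the zeta function. -/
noncomputable def az : ℕ → ℂ := aa (tt 1 0 BZ ∅) (0 : ℤ) ∅

lemma az_norm (p : ℕ) : ‖az p‖ ≤ 1 := by
  have h1 := norm_aa (tt_WB (N := 1) (w := 0) (B := BZ) (S := ∅)) p
  rw [Nat.cast_one] at h1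
  exact h1

lemma az_prime {p : ℕ} (hp : p.Prime) : az p = 1 := by
  unfold az aa
  rw [if_pos ⟨hp, notMem_empty p⟩]
  unfold tt
  have h1 : (p.Prime ∧ p ∉ (∅ : Finset ℕ)) ∧ ∃ α : Fin 1 → ℂ,
      (∀ j, ‖α j‖ = (p : ℝ) ^ (((0 : ℤ) : ℝ) / 2)) ∧
      ∀ z : ℂ, (BZ p).eval z = ∏ j, (1 - α j * z) :=
    ⟨⟨hp, notMem_empty p⟩, BZ_good p hp (notMem_empty p)⟩
  rw [dif_pos h1]
  have h2 := h1.2.choose_spec.2 1
  rw [BZ_eval] at h2
  simp only [Finset.univ_unique, Fin.default_eq_zero, Fin.isValue, prod_singleton, mul_one] at h2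
  have h3 : h1.2.choose 0 = 1 := by linear_combination h2
  simp only [Finset.univ_unique, Fin.default_eq_zero, Fin.isValue, sum_singleton, pow_one, h3]
  simp

lemma cf_az (n : ℕ) : cf az n = ((if n.Prime then (n : ℝ)⁻¹ else 0 : ℝ) : ℂ) := by
  unfold cf
  split_ifs with h
  · rw [az_prime h]
    push_cast
    rw [one_div]
  · simp

/-- The prime sum of the zeta function. -/
lemma gg_az_real (ε : ℝ) : (gg az (-(Complex.I * ε))).im = 0 := by
  have h1 : gg az (-(Complex.I * ε)) =
      ((∑' n : ℕ, (if n.Prime then (n : ℝ)⁻¹ else 0 : ℝ) * Real.exp (-ε * Real.log n) : ℝ) : ℂ) := by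
    rw [Complex.ofReal_tsum]
    unfold gg
    refine tsum_congr fun n => ?_
    rw [cf_az, Complex.ofReal_mul, Complex.ofReal_exp, Complex.ofReal_mul, Complex.ofReal_neg]
    congr 2
    linear_combination (ε : ℂ) * (Real.log n : ℝ) * Complex.I_mul_I
  rw [h1, Complex.ofReal_im]

lemma ps_az_real (x : ℕ) : (ps az 0 x).im = 0 := by
  have h1 : ps az 0 x = ((∑ n ∈ range x, (if n.Prime then (n : ℝ)⁻¹ else 0 : ℝ) : ℝ) : ℂ) := by
    rw [ps_eq, Complex.ofReal_sum]
    refine sum_congr rfl fun n _ => ?_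
    rw [cf_az]
    simp
  rw [h1, Complex.ofReal_im]

lemma exp_log_log {x : ℝ} (hx : 0 < x) : Complex.exp ((Real.log x : ℝ) : ℂ) = (x : ℂ) := by
  rw [← Complex.ofReal_exp, Real.exp_log hx]

/-- The decomposition near the edge. -/
lemma im_tend (τ₀ : ℝ) : Tendsto (fun ε : ℝ => ((τ₀ : ℂ) - Complex.I * ε)) (𝓝[>] 0)
    (𝓝 (τ₀ : ℂ)) := by
  have h1 : Continuous fun ε : ℝ => ((τ₀ : ℂ) - Complex.I * ε) := by fun_prop
  have h2 := h1.tendsto 0
  simp only [Complex.ofReal_zero, mul_zero, sub_zero] at h2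
  exact h2.mono_left nhdsWithin_le_nhds

/-- The partial products on the edge. -/
lemma prod_split {w : ℤ} {N : ℕ} {B : ℕ → ℂ[X]} {S : Finset ℕ} (hS : Good w N B S) (τ : ℝ) :
    ∃ C : ℕ → ℂ, Tendsto C atTop (𝓝 (AA (tt N w B S) S B w τ)) ∧
      ∀ x : ℕ, ∏ p ∈ Nat.primesBelow x, MC.factor B p (edge w τ) =
        C x * Complex.exp (ps (aa (tt N w B S) w S) τ x) := by
  have ht := tt_WB (N := N) (w := w) (B := B) (S := S)
  have hmem : (w : ℝ) / 2 + 1 ≤ (sp w τ).re := by rw [sp_re]
  have h1 : Summable fun p : ℕ => RR (tt N w B S) S p (sp w τ) :=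
    Summable.of_norm_bounded (RR_summable_bound N) fun p => RR_bound ht p hmem
  have h2 := h1.hasSum.tendsto_sum_nat
  have h3 := (BBf_hasProd (S := S) B (sp w τ)).tendsto_prod_nat
  have h4 := h3.mul ((Complex.continuous_exp.tendsto _).comp h2)
  refine ⟨fun x => (∏ i ∈ range x, BBf S B (sp w τ) i) *
    Complex.exp (∑ i ∈ range x, RR (tt N w B S) S i (sp w τ)), ?_, fun x => ?_⟩
  · have h5 : AA (tt N w B S) S B w τ =
        (∏ p ∈ S, BBf S B (sp w τ) p) * Complex.exp (∑' p : ℕ, RR (tt N w B S) S p (sp w τ)) := by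
      unfold AA
      rw [eg_real]
    rw [h5]
    exact h4
  · have h6 : ∏ p ∈ Nat.primesBelow x, MC.factor B p (edge w τ) =
        ∏ p ∈ Nat.primesBelow x, fac (tt N w B S) S B (sp w τ) p := by
      rw [edge_eq]
      refine prod_congr rfl fun p hp => ?_
      refine (fac_eq_factor hS (Nat.prime_of_mem_primesBelow hp) ?_).symm
      rw [sp_re]
      linarith
    rw [h6, partial_eq ht B τ x, Complex.exp_add]
    ring

lemma log_ratio :
    Tendsto (fun N : ℕ => Real.log N / Real.log (N + 1 : ℕ)) atTop (𝓝 1) := by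
  have hlog : Tendsto (fun N : ℕ => Real.log ((N + 1 : ℕ) : ℝ)) atTop atTop :=
    Real.tendsto_log_atTop.comp (tendsto_natCast_atTop_atTop.comp (tendsto_add_atTop_nat 1))
  have h2 : Tendsto (fun N : ℕ => 1 - Real.log 2 / Real.log ((N + 1 : ℕ) : ℝ)) atTop
      (𝓝 (1 - 0)) := tendsto_const_nhds.sub (tendsto_const_nhds.div_atTop hlog)
  rw [sub_zero] at h2
  refine tendsto_of_tendsto_of_tendsto_of_le_of_le' h2 tendsto_const_nhds ?_ ?_
  · filter_upwards [eventually_ge_atTop 1] with N hN
    have h3 : (0 : ℝ) < N := by exact_mod_cast hN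
    have h4 : 0 < Real.log ((N + 1 : ℕ) : ℝ) := Real.log_pos (by push_cast; linarith)
    rw [le_div_iff₀ h4, sub_mul, div_mul_cancel₀ _ h4.ne', one_mul, sub_le_iff_le_add,
      ← Real.log_mul h3.ne' (by norm_num)]
    refine Real.log_le_log (by positivity) ?_
    push_cast
    have : (1 : ℝ) ≤ N := by exact_mod_cast hN
    linarith
  · filter_upwards [eventually_ge_atTop 1] with N hN
    have h3 : (0 : ℝ) < N := by exact_mod_cast hN
    have h4 : 0 < Real.log ((N + 1 : ℕ) : ℝ) := Real.log_pos (by push_cast; linarith)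
    rw [div_le_one h4]
    refine Real.log_le_log h3 ?_
    push_cast
    linarith

/-- The asymptotics of the zeta function: on both sides. -/
theorem zeta_both : ∃ κ : ℝ,
    Tendsto (fun ε : ℝ => gg az (-(Complex.I * ε)) + Real.log ε) (𝓝[>] 0) (𝓝 (κ : ℂ)) ∧
    Tendsto (fun x : ℕ => ps az 0 x - Real.log (Real.log x)) atTop
      (𝓝 ((κ + Real.eulerMascheroniConstant : ℝ) : ℂ)) := by
  set A := AA (tt 1 0 BZ ∅) ∅ BZ 0 with hA
  have hdec := mot_dec BZ_good BZ_ne
  have hAa : AnalyticAt ℂ A 0 ∧ A 0 ≠ 0 := AA_analytic (by simp) (by simp)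
  -- the side of the function
  have h1 : Tendsto (fun ε : ℝ => Complex.exp (gg az (-(Complex.I * ε)) + Real.log ε)) (𝓝[>] 0)
      (𝓝 (A 0)⁻¹) := by
    have h2 : Tendsto (fun ε : ℝ => A (-(Complex.I * ε))) (𝓝[>] 0) (𝓝 (A 0)) := by
      have h3 := hAa.1.continuousAt.tendsto
      have h4 := im_tend 0
      simp only [Complex.ofReal_zero, zero_sub] at h4
      exact h3.comp h4
    have h5 : Tendsto (fun ε : ℝ => ((1 : ℂ) + ε - 1) * riemannZeta (1 + ε)) (𝓝[>] 0) (𝓝 1) := by
      have h6 : Tendsto (fun ε : ℝ => (1 : ℂ) + ε) (𝓝[>] 0) (𝓝[≠] 1) := by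
        refine tendsto_nhdsWithin_iff.2 ⟨?_, ?_⟩
        · have h7 : Continuous fun ε : ℝ => (1 : ℂ) + ε := by fun_prop
          have h8 := h7.tendsto 0
          simp only [Complex.ofReal_zero, add_zero] at h8
          exact h8.mono_left nhdsWithin_le_nhds
        · filter_upwards [self_mem_nhdsWithin] with ε hε
          have hε' : (0 : ℝ) < ε := hε
          simp only [Set.mem_compl_iff, Set.mem_singleton_iff, add_eq_left]
          exact_mod_cast hε'.ne'
      exact riemannZeta_residue_one.comp h6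
    have h9 := h5.mul (h2.inv₀ hAa.2)
    rw [one_mul] at h9
    refine h9.congr' ?_
    filter_upwards [self_mem_nhdsWithin] with ε hε
    have hε' : (0 : ℝ) < ε := hε
    have him : (-(Complex.I * (ε : ℂ))).im < 0 := by simpa using hε'
    have h10 : LFun BZ (eg 0 (-(Complex.I * ε))) =
        A (-(Complex.I * ε)) * Complex.exp (gg az (-(Complex.I * ε))) := hdec.eqL _ him
    have h11 : eg 0 (-(Complex.I * ε)) = 1 + ε := by
      unfold eg
      linear_combination (norm := (push_cast; ring)) (-(ε : ℂ)) * Complex.I_mul_I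
    have h12 : LFun BZ (1 + ε) = riemannZeta (1 + ε) := by
      unfold LFun MC.factor
      simp_rw [BZ_eval]
      exact riemannZeta_eulerProduct_tprod (by simpa using hε')
    have hne : A (-(Complex.I * ε)) ≠ 0 := (AA_analytic (S := ∅) him.le (by simp)).2
    rw [h11, h12] at h10
    rw [h10, Complex.exp_add, exp_log_log hε', add_sub_cancel_left]
    have h13 := mul_inv_cancel₀ hne
    linear_combination (ε : ℂ) * Complex.exp (gg az (-(Complex.I * ε))) * h13
  obtain ⟨κ, hκ⟩ := lim_of_exp (c := (A 0)⁻¹) (h := fun ε : ℝ =>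
      gg az (-(Complex.I * ε)) + Real.log ε) (fun ε hε => by
    refine (gg_path_diff zero_le_one az_norm ε hε).add ?_
    exact (Real.hasDerivAt_log hε.ne').ofReal_comp.differentiableAt) (inv_ne_zero hAa.2) h1
  have hκim : κ.im = 0 := by
    have h2 := (Complex.continuous_im.tendsto _).comp hκ
    refine tendsto_nhds_unique h2 ?_
    refine tendsto_const_nhds.congr fun ε => ?_
    simp only [Function.comp_apply, Complex.add_im, gg_az_real, Complex.ofReal_im, add_zero]
  have hκe : Complex.exp κ = (A 0)⁻¹ :=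
    tendsto_nhds_unique ((Complex.continuous_exp.tendsto _).comp hκ) h1
  -- the side of the products
  have hp1 : Tendsto (fun x : ℕ => Complex.exp (ps az 0 x - Real.log (Real.log x))) atTop
      (𝓝 (Complex.exp (Real.eulerMascheroniConstant : ℂ) * (A 0)⁻¹)) := by
    have hM := Pool.Agent.H305R2.mertens_three
    obtain ⟨C, hC, hCe⟩ := prod_split BZ_good 0
    rw [Complex.ofReal_zero] at hC
    have hM1 : Tendsto (fun N : ℕ => (∏ p ∈ (Finset.Icc 1 N).filter Nat.Prime,
        (1 - (p : ℝ)⁻¹)⁻¹) / Real.log (N + 1 : ℕ)) atTop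
        (𝓝 (Real.exp Real.eulerMascheroniConstant)) := by
      have hq := log_ratio
      have h2 := hM.mul hq
      rw [mul_one] at h2
      refine h2.congr' ?_
      filter_upwards [eventually_ge_atTop 2] with N hN
      have h3 : Real.log N ≠ 0 := (Real.log_pos (by exact_mod_cast hN)).ne'
      field_simp
    have hM2 : Tendsto (fun x : ℕ => ((∏ p ∈ Nat.primesBelow x, (1 - (p : ℝ)⁻¹)⁻¹) / Real.log x : ℝ))
        atTop (𝓝 (Real.exp Real.eulerMascheroniConstant)) := by
      rw [← tendsto_add_atTop_iff_nat 1]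
      refine hM1.congr fun N => ?_
      congr 1
      refine prod_congr ?_ fun _ _ => rfl
      ext p
      simp only [mem_filter, mem_Icc, Nat.mem_primesBelow]
      constructor
      · rintro ⟨⟨h5, h6⟩, h7⟩
        exact ⟨by omega, h7⟩
      · rintro ⟨h5, h6⟩
        exact ⟨⟨h6.one_le, by omega⟩, h6⟩
    have hM3 := (Complex.continuous_ofReal.tendsto _).comp hM2
    rw [Complex.ofReal_exp] at hM3
    have h4 := hM3.mul (hC.inv₀ hAa.2)
    refine h4.congr' ?_
    have hCne : ∀ᶠ x in atTop, C x ≠ 0 := hC.eventually_ne hAa.2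
    filter_upwards [eventually_ge_atTop 2, hCne] with x hx hCx
    have hl : 0 < Real.log x := Real.log_pos (by exact_mod_cast hx)
    have h5 := hCe x
    have h6 : ∏ p ∈ Nat.primesBelow x, MC.factor BZ p (edge 0 0) =
        ((∏ p ∈ Nat.primesBelow x, (1 - (p : ℝ)⁻¹)⁻¹ : ℝ) : ℂ) := by
      push_cast
      refine prod_congr rfl fun p _ => ?_
      unfold MC.factor edge
      rw [BZ_eval]
      simp [Complex.cpow_neg_one]
    rw [h6] at h5
    simp only [Function.comp_apply, Complex.ofReal_div]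
    rw [h5, Complex.exp_sub, exp_log_log hl]
    have h7 := mul_inv_cancel₀ hCx
    show C x * Complex.exp (ps az 0 x) / _ * (C x)⁻¹ = _
    field_simp
  -- the logarithm
  have hincr : Tendsto (fun x : ℕ => (ps az 0 (x + 1) - Real.log (Real.log (x + 1 : ℕ))) -
      (ps az 0 x - Real.log (Real.log x))) atTop (𝓝 0) := by
    have h2 := ps_incr zero_le_one az_norm
    have h3 : Tendsto (fun x : ℕ => Real.log (Real.log (x + 1 : ℕ)) - Real.log (Real.log x))
        atTop (𝓝 0) := by
      have h4 := ((Real.continuousAt_log one_ne_zero).tendsto.comp log_ratio).neg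
      rw [Real.log_one, neg_zero] at h4
      refine h4.congr' ?_
      filter_upwards [eventually_ge_atTop 2] with x hx
      have h5 : 0 < Real.log x := Real.log_pos (by exact_mod_cast hx)
      have h6 : 0 < Real.log ((x + 1 : ℕ) : ℝ) := Real.log_pos (by
        push_cast
        have : (2 : ℝ) ≤ x := by exact_mod_cast hx
        linarith)
      simp only [Function.comp_apply]
      rw [Real.log_div h5.ne' h6.ne']
      ring
    have h4 := h2.sub ((Complex.continuous_ofReal.tendsto _).comp h3)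
    rw [Complex.ofReal_zero, sub_zero] at h4
    refine h4.congr fun x => ?_
    simp only [Function.comp_apply, Complex.ofReal_sub]
    ring
  have hne2 : Complex.exp (Real.eulerMascheroniConstant : ℂ) * (A 0)⁻¹ ≠ 0 :=
    mul_ne_zero (Complex.exp_ne_zero _) (inv_ne_zero hAa.2)
  obtain ⟨κ', hκ'⟩ := lim_of_exp_seq (S := fun x : ℕ => ps az 0 x - Real.log (Real.log x))
    hincr hne2 hp1
  have hκ'im : κ'.im = 0 := by
    have h2 := (Complex.continuous_im.tendsto _).comp hκ'
    refine tendsto_nhds_unique h2 ?_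
    refine tendsto_const_nhds.congr fun x => ?_
    simp only [Function.comp_apply, Complex.sub_im, ps_az_real, Complex.ofReal_im, sub_zero]
  have hκ'e : Complex.exp κ' = Complex.exp (Real.eulerMascheroniConstant : ℂ) * (A 0)⁻¹ :=
    tendsto_nhds_unique ((Complex.continuous_exp.tendsto _).comp hκ') hp1
  have e1 : κ = (κ.re : ℂ) := by
    apply Complex.ext
    · simp
    · simp [hκim]
  have e2 : κ' = (κ'.re : ℂ) := by
    apply Complex.ext
    · simp
    · simp [hκ'im]
  have e3 : κ'.re = κ.re + Real.eulerMascheroniConstant := by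
    rw [← hκe, ← Complex.exp_add, e1, e2, ← Complex.ofReal_add, ← Complex.ofReal_exp,
      ← Complex.ofReal_exp, Complex.ofReal_inj] at hκ'e
    have h2 := Real.exp_injective hκ'e
    linarith
  refine ⟨κ.re, ?_, ?_⟩
  · rw [← e1]
    exact hκ
  · rw [← e3, ← e2]
    exact hκ'

end Pool.Agent.R385.TA
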