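import Pool.Agent.R385.TA.Taub2
import Pool.Agent.R385.MC.Main

/-!
# Limits of the exponential
-/

set_option autoImplicit false

namespace Pool.Agent.R385.TA

open Filter Topology MeasureTheory Finset Pool.Agent.W350.Edge Pool.Agent.R385.MC Polynomial

/-- If `exp h → c ≠ 0` for a differentiable function `h`, then `h` converges. -/
lemma lim_of_exp {h : ℝ → ℂ} (hd : ∀ ε : ℝ, 0 < ε → DifferentiableAt ℝ h ε) {c : ℂ} (hc : c ≠ 0)
    (hl : Tendsto (fun ε => Complex.exp (h ε)) (𝓝[>] 0) (𝓝 c)) :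
    ∃ l : ℂ, Tendsto h (𝓝[>] 0) (𝓝 l) := by
  have h1 : Tendsto (fun ε => Complex.exp (h ε) / c) (𝓝[>] 0) (𝓝 1) := by
    have := hl.div_const c
    rwa [div_self hc] at this
  have h2 : ∀ᶠ ε in 𝓝[>] (0 : ℝ), Complex.exp (h ε) / c ∈ Metric.ball (1 : ℂ) (1 / 2) :=
    h1.eventually (Metric.ball_mem_nhds _ (by norm_num))
  rw [eventually_nhdsWithin_iff, Metric.eventually_nhds_iff_ball] at h2
  obtain ⟨r, hr, hall⟩ := h2
  have hI : ∀ ε ∈ Set.Ioo (0 : ℝ) r, Complex.exp (h ε) / c ∈ Complex.slitPlane := by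
    intro ε hε
    have h3 := hall ε (by
      rw [Metric.mem_ball, Real.dist_eq, sub_zero, abs_of_pos hε.1]
      exact hε.2) hε.1
    exact Complex.ball_one_subset_slitPlane (Metric.ball_subset_ball (by norm_num) h3)
  set u : ℝ → ℂ := fun ε => h ε - Complex.log (Complex.exp (h ε) / c) with hu
  have hud : ∀ ε ∈ Set.Ioo (0 : ℝ) r, HasDerivAt u 0 ε := by
    intro ε hε
    have h3 := (hd ε hε.1).hasDerivAt
    have h4 := (h3.cexp.div_const c).clog_real (hI ε hε)
    have h5 := h3.sub h4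
    refine h5.congr_deriv ?_
    have := Complex.exp_ne_zero (h ε)
    field_simp
    ring
  have huc : ∀ x ∈ Set.Ioo (0 : ℝ) r, ∀ y ∈ Set.Ioo (0 : ℝ) r, u x = u y := by
    intro x hx y hy
    refine IsOpen.is_const_of_deriv_eq_zero (𝕜 := ℝ) isOpen_Ioo isPreconnected_Ioo
      (fun z hz => (hud z hz).differentiableAt.differentiableWithinAt)
      (fun z hz => (hud z hz).deriv) hx hy
  set ε₀ := r / 2 with hε₀
  have hε₀m : ε₀ ∈ Set.Ioo (0 : ℝ) r := ⟨by positivity, by rw [hε₀]; linarith⟩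
  have h4 : Tendsto (fun ε => u ε₀ + Complex.log (Complex.exp (h ε) / c)) (𝓝[>] 0)
      (𝓝 (u ε₀ + Complex.log 1)) := by
    refine Tendsto.const_add _ ?_
    exact (continuousAt_clog Complex.one_mem_slitPlane).tendsto.comp h1
  refine ⟨_, h4.congr' ?_⟩
  filter_upwards [Ioo_mem_nhdsGT hr] with ε hε
  rw [huc ε₀ hε₀m ε hε, hu]
  ring

/-- If `exp S_x → c ≠ 0` and the increments of `S` tend to `0`, then `S` converges. -/
lemma lim_of_exp_seq {S : ℕ → ℂ} (hs : Tendsto (fun x => S (x + 1) - S x) atTop (𝓝 0)) {c : ℂ}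
    (hc : c ≠ 0) (hl : Tendsto (fun x => Complex.exp (S x)) atTop (𝓝 c)) :
    ∃ l : ℂ, Tendsto S atTop (𝓝 l) := by
  have h1 : Tendsto (fun x => Complex.exp (S x) / c) atTop (𝓝 1) := by
    have := hl.div_const c
    rwa [div_self hc] at this
  have hlog : Tendsto (fun x => Complex.log (Complex.exp (S x) / c)) atTop (𝓝 0) := by
    have := (continuousAt_clog Complex.one_mem_slitPlane).tendsto.comp h1
    rwa [Complex.log_one] at this
  set u : ℕ → ℂ := fun x => S x - Complex.log (Complex.exp (S x) / c) with hu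
  have hexp : ∀ x, Complex.exp (u x) = c := by
    intro x
    have h2 : Complex.exp (S x) / c ≠ 0 := div_ne_zero (Complex.exp_ne_zero _) hc
    rw [hu]
    simp only
    rw [Complex.exp_sub, Complex.exp_log h2]
    have := Complex.exp_ne_zero (S x)
    field_simp
  have hdiff : Tendsto (fun x => u (x + 1) - u x) atTop (𝓝 0) := by
    have h2 := (hs.sub ((hlog.comp (tendsto_add_atTop_nat 1)).sub hlog))
    rw [sub_zero, sub_zero] at h2
    refine h2.congr fun x => ?_
    simp only [Function.comp_apply, hu]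
    ring
  have hconst : ∀ᶠ x in atTop, u (x + 1) = u x := by
    have h2 := hdiff.eventually (Metric.ball_mem_nhds (0 : ℂ) one_pos)
    filter_upwards [h2] with x hx
    rw [dist_zero_right] at hx
    have h3 : Complex.exp (u (x + 1)) = Complex.exp (u x) := by rw [hexp, hexp]
    rw [Complex.exp_eq_exp_iff_exists_int] at h3
    obtain ⟨n, hn⟩ := h3
    have h4 : u (x + 1) - u x = n * (2 * Real.pi * Complex.I) := by rw [hn]; ring
    rw [h4, norm_mul, Complex.norm_intCast] at hx
    have h5 : ‖(2 * (Real.pi : ℂ) * Complex.I)‖ = 2 * Real.pi := by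
      rw [norm_mul, norm_mul, Complex.norm_I, Complex.norm_real, Complex.norm_ofNat,
        Real.norm_of_nonneg Real.pi_pos.le, mul_one]
    rw [h5] at hx
    have h6 : |(n : ℝ)| < 1 := by
      have := Real.pi_gt_three
      nlinarith [abs_nonneg (n : ℝ)]
    have h7 : n = 0 := by
      have : |n| < 1 := by exact_mod_cast h6
      exact Int.abs_lt_one_iff.1 this
    rw [h7] at h4
    simp at h4
    exact sub_eq_zero.1 h4
  obtain ⟨X, hX⟩ := eventually_atTop.1 hconst
  have hall : ∀ x, X ≤ x → u x = u X := by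
    intro x hx
    induction x, hx using Nat.le_induction with
    | base => rfl
    | succ x hx ih => rw [hX x hx, ih]
  refine ⟨u X + 0, (hlog.const_add (u X)).congr' ?_⟩
  filter_upwards [eventually_ge_atTop X] with x hx
  rw [← hall x hx, hu]
  ring

/-- The increments of the prime sum. -/
lemma ps_incr {a : ℕ → ℂ} {D : ℝ} (hD : 0 ≤ D) (ha : ∀ p, ‖a p‖ ≤ D) :
    Tendsto (fun x : ℕ => ps a 0 (x + 1) - ps a 0 x) atTop (𝓝 0) := by
  have h1 : ∀ x : ℕ, ‖ps a 0 (x + 1) - ps a 0 x‖ ≤ D / x := by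
    intro x
    rw [ps_eq, ps_eq, sum_range_succ, add_sub_cancel_left]
    simp only [Complex.ofReal_zero, mul_zero, neg_zero, zero_mul, Complex.exp_zero, mul_one]
    exact norm_cf hD ha x
  refine squeeze_zero_norm h1 ?_
  exact tendsto_const_nhds.div_atTop tendsto_natCast_atTop_atTop

lemma gg_path_diff {a : ℕ → ℂ} {D : ℝ} (hD : 0 ≤ D) (ha : ∀ p, ‖a p‖ ≤ D) (ε : ℝ) (hε : 0 < ε) :
    DifferentiableAt ℝ (fun ε : ℝ => gg a (-(Complex.I * ε))) ε := by
  have h1 : DifferentiableAt ℂ (gg a) (-(Complex.I * ε)) := by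
    refine (gg_diff hD ha).differentiableAt
      ((isOpen_lt Complex.continuous_im continuous_const).mem_nhds ?_)
    show (-(Complex.I * (ε : ℂ))).im < 0
    simp [hε]
  have h2 : HasDerivAt (fun ε : ℂ => -(Complex.I * ε)) (-(Complex.I * 1)) (ε : ℂ) :=
    ((hasDerivAt_id (ε : ℂ)).const_mul _).neg
  have h3 : DifferentiableAt ℂ ((gg a) ∘ fun z : ℂ => -(Complex.I * z)) (ε : ℂ) :=
    DifferentiableAt.comp (ε : ℂ) h1 h2.differentiableAt
  have h4 := h3.hasDerivAt.comp_ofReal.differentiableAt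
  exact h4

/-- **Abel and Tauber for the exponential.** -/
theorem exp_iff {a : ℕ → ℂ} {D : ℝ} (hD : 0 ≤ D) (ha : ∀ p, ‖a p‖ ≤ D) {c : ℂ} (hc : c ≠ 0) :
    Tendsto (fun ε : ℝ => Complex.exp (gg a (-(Complex.I * ε)))) (𝓝[>] 0) (𝓝 c) ↔
      Tendsto (fun x : ℕ => Complex.exp (ps a 0 x)) atTop (𝓝 c) := by
  constructor
  · intro h
    obtain ⟨l, hl⟩ := lim_of_exp (gg_path_diff hD ha) hc h
    have h1 := (Complex.continuous_exp.tendsto _).comp hl
    have h2 := tendsto_nhds_unique h1 h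
    have h3 := (Complex.continuous_exp.tendsto _).comp (tauber hD ha hl)
    rw [h2] at h3
    exact h3
  · intro h
    obtain ⟨l, hl⟩ := lim_of_exp_seq (ps_incr hD ha) hc h
    have h1 := (Complex.continuous_exp.tendsto _).comp hl
    have h2 := tendsto_nhds_unique h1 h
    have hbv : bv a 0 = l := hl.limUnder_eq
    have h3 : Tendsto (ps a 0) atTop (𝓝 (bv a 0)) := by rw [hbv]; exact hl
    have h4 := bv_radial hD ha h3
    rw [hbv] at h4
    have h5 := (Complex.continuous_exp.tendsto _).comp h4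
    rw [h2] at h5
    refine h5.congr fun ε => ?_
    simp only [Function.comp_apply, Complex.ofReal_zero, zero_sub]

end Pool.Agent.R385.TA
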