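import Pool.Agent.R385.TA.Zet

/-!
# Mertens' theorem on the edge and the radial behaviour of the L-function
-/

set_option autoImplicit false

namespace Pool.Agent.R385.TA

open Filter Topology MeasureTheory Finset Pool.Agent.W350.Edge Pool.Agent.R385.MC Polynomial

lemma cf_tw (a : ℕ → ℂ) (z : ℝ) (n : ℕ) :
    cf (fun p => a p * Complex.exp (-(Complex.I * z) * Real.log p)) n =
      cf a n * Complex.exp (-(Complex.I * z) * Real.log n) := by
  unfold cf
  split_ifs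
  · ring
  · simp

lemma gg_tw (a : ℕ → ℂ) (z : ℝ) (ζ : ℂ) :
    gg (fun p => a p * Complex.exp (-(Complex.I * z) * Real.log p)) ζ = gg a (z + ζ) := by
  unfold gg
  refine tsum_congr fun n => ?_
  rw [cf_tw, mul_assoc, ← Complex.exp_add]
  congr 2
  ring

lemma ps_tw0 (a : ℕ → ℂ) (z : ℝ) (x : ℕ) :
    ps (fun p => a p * Complex.exp (-(Complex.I * z) * Real.log p)) 0 x = ps a z x := by
  rw [ps_eq, ps_eq]
  refine sum_congr rfl fun n _ => ?_
  rw [cf_tw]
  simp

lemma norm_tw0 {a : ℕ → ℂ} {D : ℝ} (ha : ∀ p, ‖a p‖ ≤ D) (z : ℝ) (p : ℕ) :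
    ‖a p * Complex.exp (-(Complex.I * z) * Real.log p)‖ ≤ D := by
  have h1 : (-(Complex.I * (z : ℂ)) * ((Real.log p : ℝ) : ℂ)) =
      ((-(z * Real.log p) : ℝ) : ℂ) * Complex.I := by
    push_cast
    ring
  rw [norm_mul, h1, Complex.norm_exp_ofReal_mul_I, mul_one]
  exact ha p

lemma ps_add_mul (a b : ℕ → ℂ) (j : ℂ) (τ : ℝ) (x : ℕ) :
    ps (fun p => a p + j * b p) τ x = ps a τ x + j * ps b τ x := by
  rw [ps_eq, ps_eq, ps_eq, mul_sum, ← sum_add_distrib]
  refine sum_congr rfl fun n _ => ?_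
  unfold cf
  split_ifs
  · ring
  · simp

/-- **Mertens' theorem on the edge**, the equivalence with the radial behaviour. -/
theorem mertens_edge {w : ℤ} {N : ℕ} {B : ℕ → ℂ[X]} (h : IsEuler w N B) (τ₀ : ℝ)
    (hpole : ∀ p : ℕ, p.Prime → (B p).eval ((p : ℂ) ^ (-edge w τ₀)) ≠ 0) (m ℓ : ℂ) (hℓ : ℓ ≠ 0) :
    Tendsto (fun ε : ℝ => Complex.exp (-(m * Real.log ε)) * LFun B (edge w τ₀ + ε)) (𝓝[>] 0)
      (𝓝 ℓ) ↔
    Tendsto (fun x : ℕ => Complex.exp (m * Real.log (Real.log x)) *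
      ∏ p ∈ Nat.primesBelow x, MC.factor B p (edge w τ₀)) atTop
      (𝓝 (Complex.exp (-(m * Real.eulerMascheroniConstant)) * ℓ)) := by
  obtain ⟨S, hS⟩ := exists_good h
  set a₀ : ℕ → ℂ := aa (tt N w B S) w S with ha₀
  have ha₀n : ∀ p, ‖a₀ p‖ ≤ (N : ℝ) := norm_aa (tt_WB (N := N) (w := w) (B := B) (S := S))
  set A := AA (tt N w B S) S B w with hA
  have hAa : AnalyticAt ℂ A τ₀ ∧ A τ₀ ≠ 0 := by
    refine AA_analytic (by simp) fun p _ hp => ?_
    have := hpole p hp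
    rw [edge_eg] at this
    exact this
  have hdec := mot_dec hS h.2
  obtain ⟨κ, hκ, hκ'⟩ := zeta_both
  obtain ⟨C, hC, hCe⟩ := prod_split hS τ₀
  set a : ℕ → ℂ := fun p => a₀ p * Complex.exp (-(Complex.I * τ₀) * Real.log p) with ha
  have han : ∀ p, ‖a p‖ ≤ (N : ℝ) := norm_tw0 ha₀n τ₀
  set b : ℕ → ℂ := fun p => a p + m * az p with hb
  have hbn : ∀ p, ‖b p‖ ≤ (N : ℝ) + ‖m‖ := fun p => by
    refine (norm_add_le _ _).trans (add_le_add (han p) ?_)
    rw [norm_mul]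
    exact mul_le_of_le_one_right (norm_nonneg _) (az_norm p)
  have hN : (0 : ℝ) ≤ N := Nat.cast_nonneg N
  have hbD : (0 : ℝ) ≤ (N : ℝ) + ‖m‖ := by positivity
  -- the side of the function
  have hAl : Tendsto (fun ε : ℝ => A (τ₀ - Complex.I * ε)) (𝓝[>] 0) (𝓝 (A τ₀)) :=
    hAa.1.continuousAt.tendsto.comp (im_tend τ₀)
  have hE : Tendsto (fun ε : ℝ => Complex.exp (m * (gg az (-(Complex.I * ε)) + Real.log ε)))
      (𝓝[>] 0) (𝓝 (Complex.exp (m * κ))) :=
    (Complex.continuous_exp.tendsto _).comp (hκ.const_mul m)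
  have hfun : ∀ᶠ ε : ℝ in 𝓝[>] 0, Complex.exp (-(m * Real.log ε)) * LFun B (edge w τ₀ + ε) *
      (Complex.exp (m * (gg az (-(Complex.I * ε)) + Real.log ε)) * (A (τ₀ - Complex.I * ε))⁻¹) =
      Complex.exp (gg b (-(Complex.I * ε))) := by
    filter_upwards [self_mem_nhdsWithin, hAl.eventually_ne hAa.2] with ε hε hAne
    have hε' : (0 : ℝ) < ε := hε
    have him : (-(Complex.I * (ε : ℂ))).im < 0 := by simpa using hε'
    have him' : ((τ₀ : ℂ) + -(Complex.I * (ε : ℂ))).im < 0 := by simpa using hε'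
    have h1 : LFun B (edge w τ₀ + ε) = A (τ₀ - Complex.I * ε) * Complex.exp (gg a (-(Complex.I * ε))) := by
      rw [ha, gg_tw]
      have h2 := hdec.eqL ((τ₀ : ℂ) + -(Complex.I * (ε : ℂ))) him'
      have h3 : eg w ((τ₀ : ℂ) + -(Complex.I * (ε : ℂ))) = edge w τ₀ + ε := by
        rw [edge_eg]
        unfold eg
        linear_combination (-(ε : ℂ)) * Complex.I_mul_I
      rw [h3] at h2
      rw [h2, ← sub_eq_add_neg]
    have h4 : gg b (-(Complex.I * ε)) = gg a (-(Complex.I * ε)) + m * gg az (-(Complex.I * ε)) :=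
      gg_add_mul hN han az_norm m him
    rw [h1, h4, mul_add m, Complex.exp_add, Complex.exp_add, Complex.exp_neg]
    have h5 := Complex.exp_ne_zero (m * (Real.log ε : ℝ))
    field_simp
  have hseq : ∀ᶠ x : ℕ in atTop, Complex.exp (m * Real.log (Real.log x)) *
      (∏ p ∈ Nat.primesBelow x, MC.factor B p (edge w τ₀)) *
      (Complex.exp (m * (ps az 0 x - Real.log (Real.log x))) * (C x)⁻¹) =
      Complex.exp (ps b 0 x) := by
    filter_upwards [hC.eventually_ne hAa.2] with x hCx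
    rw [hCe x, hb, ps_add_mul, ha, ps_tw0, mul_sub, Complex.exp_sub, Complex.exp_add]
    have h5 := Complex.exp_ne_zero (m * (Real.log (Real.log x) : ℝ))
    rw [← ha₀]
    field_simp
  have hEs : Tendsto (fun x : ℕ => Complex.exp (m * (ps az 0 x - Real.log (Real.log x))))
      atTop (𝓝 (Complex.exp (m * ((κ + Real.eulerMascheroniConstant : ℝ) : ℂ)))) :=
    (Complex.continuous_exp.tendsto _).comp (hκ'.const_mul m)
  have hu := hE.mul (hAl.inv₀ hAa.2)
  have hv := hEs.mul (hC.inv₀ hAa.2)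
  set c := ℓ * (Complex.exp (m * κ) * (A τ₀)⁻¹) with hc
  have hcne : c ≠ 0 := mul_ne_zero hℓ (mul_ne_zero (Complex.exp_ne_zero _) (inv_ne_zero hAa.2))
  have hc' : c = (Complex.exp (-(m * Real.eulerMascheroniConstant)) * ℓ) *
      (Complex.exp (m * ((κ + Real.eulerMascheroniConstant : ℝ) : ℂ)) * (A τ₀)⁻¹) := by
    rw [hc, Complex.ofReal_add, mul_add, Complex.exp_add, Complex.exp_neg]
    have h5 := Complex.exp_ne_zero (m * (Real.eulerMascheroniConstant : ℂ))
    field_simp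
  have hkey := exp_iff hbD hbn hcne
  have hune : Complex.exp (m * κ) * (A τ₀)⁻¹ ≠ 0 :=
    mul_ne_zero (Complex.exp_ne_zero _) (inv_ne_zero hAa.2)
  have hvne : Complex.exp (m * ((κ + Real.eulerMascheroniConstant : ℝ) : ℂ)) * (A τ₀)⁻¹ ≠ 0 :=
    mul_ne_zero (Complex.exp_ne_zero _) (inv_ne_zero hAa.2)
  have hF : Tendsto (fun ε : ℝ => Complex.exp (-(m * Real.log ε)) * LFun B (edge w τ₀ + ε)) (𝓝[>] 0)
      (𝓝 ℓ) ↔ Tendsto (fun ε : ℝ => Complex.exp (gg b (-(Complex.I * ε)))) (𝓝[>] 0) (𝓝 c) := by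
    constructor
    · intro h1
      exact (h1.mul hu).congr' hfun
    · intro h1
      have h2 := h1.mul (hu.inv₀ hune)
      have h3 : c * (Complex.exp (m * κ) * (A τ₀)⁻¹)⁻¹ = ℓ := by
        rw [hc, mul_assoc, mul_inv_cancel₀ hune, mul_one]
      rw [h3] at h2
      refine h2.congr' ?_
      filter_upwards [hfun, hu.eventually_ne hune] with ε h4 h5
      rw [← h4, mul_assoc, mul_inv_cancel₀ h5, mul_one]
  have hG : Tendsto (fun x : ℕ => Complex.exp (m * Real.log (Real.log x)) *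
      ∏ p ∈ Nat.primesBelow x, MC.factor B p (edge w τ₀)) atTop
      (𝓝 (Complex.exp (-(m * Real.eulerMascheroniConstant)) * ℓ)) ↔
      Tendsto (fun x : ℕ => Complex.exp (ps b 0 x)) atTop (𝓝 c) := by
    constructor
    · intro h1
      rw [hc']
      exact (h1.mul hv).congr' hseq
    · intro h1
      have h2 := h1.mul (hv.inv₀ hvne)
      have h3 : c * (Complex.exp (m * ((κ + Real.eulerMascheroniConstant : ℝ) : ℂ)) *
          (A τ₀)⁻¹)⁻¹ = Complex.exp (-(m * Real.eulerMascheroniConstant)) * ℓ := by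
        rw [hc', mul_assoc, mul_inv_cancel₀ hvne, mul_one]
      rw [h3] at h2
      refine h2.congr' ?_
      filter_upwards [hseq, hv.eventually_ne hvne] with x h4 h5
      rw [← h4, mul_assoc, mul_inv_cancel₀ h5, mul_one]
  rw [hF, hG, hkey]

end Pool.Agent.R385.TA
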