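import Pool.Agent.R385.MC.Bdry

/-!
# A Tauberian theorem for prime sums
-/

set_option autoImplicit false

namespace Pool.Agent.R385.TA

open Filter Topology MeasureTheory Finset Pool.Agent.W350.Edge Pool.Agent.R385.MC

/-- The weight `p^{-ε} / p`. -/
noncomputable def wt (ε : ℝ) (n : ℕ) : ℝ := if n.Prime then Real.exp (-ε * Real.log n) / n else 0

lemma wt_nonneg (ε : ℝ) (n : ℕ) : 0 ≤ wt ε n := by
  unfold wt
  split_ifs
  · positivity
  · exact le_rfl

lemma wt_summable {ε : ℝ} (hε : 0 < ε) : Summable (wt ε) := by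
  refine Summable.of_nonneg_of_le (wt_nonneg ε) (fun n => ?_)
    (Real.summable_one_div_nat_rpow.2 (by linarith : 1 < 1 + ε))
  unfold wt
  split_ifs with hp
  · have hn0 : (0 : ℝ) < n := by exact_mod_cast hp.pos
    have h1 : Real.exp (-ε * Real.log n) = (n : ℝ) ^ (-ε) := by
      rw [Real.rpow_def_of_pos hn0, mul_comm]
    rw [h1, one_div, ← Real.rpow_neg hn0.le, div_eq_mul_inv, ← Real.rpow_neg_one (n : ℝ),
      ← Real.rpow_add hn0]
    apply le_of_eq
    congr 1
    ring
  · positivity

/-- `∑ (1/p) p^{-ε} (1 - p^{-ε})` is bounded. -/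
lemma weight_bound (F : Finset ℕ) {ε : ℝ} (hε : 0 < ε) (hε1 : ε ≤ 1) :
    ∑ n ∈ F, wt ε n * (1 - Real.exp (-ε * Real.log n)) ≤ 8 * CC + 1 := by
  have hC := CC_pos
  have hlog2 : (0 : ℝ) ≤ Real.log 2 := Real.log_nonneg (by norm_num)
  have h0 : ∀ n : ℕ, 0 ≤ wt ε n * (1 - Real.exp (-ε * Real.log n)) := by
    intro n
    refine mul_nonneg (wt_nonneg ε n) ?_
    have : Real.exp (-ε * Real.log n) ≤ 1 := by
      rw [Real.exp_le_one_iff]
      have := Real.log_natCast_nonneg n
      nlinarith
    linarith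
  -- the prime 2
  have h2 : ∑ n ∈ F with ¬ (3 ≤ n), wt ε n * (1 - Real.exp (-ε * Real.log n)) ≤ 1 := by
    calc ∑ n ∈ F with ¬ (3 ≤ n), wt ε n * (1 - Real.exp (-ε * Real.log n))
        ≤ ∑ n ∈ range 3, wt ε n * (1 - Real.exp (-ε * Real.log n)) := by
          refine sum_le_sum_of_subset_of_nonneg (fun n hn => ?_) fun n _ _ => h0 n
          rw [mem_filter] at hn
          rw [mem_range]
          omega
      _ ≤ 1 := by
          rw [sum_range_succ, sum_range_succ, sum_range_succ, sum_range_zero]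
          have e0 : wt ε 0 = 0 := by unfold wt; rw [if_neg (by norm_num)]
          have e1 : wt ε 1 = 0 := by unfold wt; rw [if_neg (by norm_num)]
          rw [e0, e1, zero_mul, zero_mul, zero_add, zero_add]
          unfold wt
          rw [if_pos Nat.prime_two]
          have e2 : Real.exp (-ε * Real.log ((2 : ℕ) : ℝ)) ≤ 1 := by
            rw [Real.exp_le_one_iff]
            push_cast
            nlinarith
          have e3 := Real.exp_pos (-ε * Real.log ((2 : ℕ) : ℝ))
          push_cast at e2 e3 ⊢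
          nlinarith
  have h3 : ∑ n ∈ F with 3 ≤ n, wt ε n * (1 - Real.exp (-ε * Real.log n)) ≤ 8 * CC := by
    have h4 : ∑ n ∈ F with 3 ≤ n, wt ε n * (1 - Real.exp (-ε * Real.log n)) ≤
        ∑ p ∈ F.filter (fun n => n.Prime ∧ 3 ≤ n), (1 : ℝ) / p *
          (fun k : ℕ => 2 * ε * k * Real.exp (-ε * k)) (lg p) := by
      rw [sum_filter, sum_filter]
      refine sum_le_sum fun n _ => ?_
      by_cases hp : n.Prime
      · by_cases h5 : 3 ≤ n
        · rw [if_pos h5, if_pos ⟨hp, h5⟩]
          unfold wt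
          rw [if_pos hp]
          have hn0 : (0 : ℝ) < n := by exact_mod_cast hp.pos
          have h6 : 1 ≤ lg n := by
            refine Nat.le_floor ?_
            rw [Nat.cast_one, Real.le_log_iff_exp_le hn0]
            have := Real.exp_one_lt_d9
            have h6 : (3 : ℝ) ≤ n := by exact_mod_cast h5
            linarith
          have h7 : (1 : ℝ) ≤ lg n := by exact_mod_cast h6
          have h8 := lg_le hp.one_le
          have h9 := lt_lg n
          have h10 : Real.exp (-ε * Real.log n) ≤ Real.exp (-ε * lg n) := by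
            refine Real.exp_le_exp.2 ?_
            nlinarith
          have h11 : 1 - Real.exp (-ε * Real.log n) ≤ 2 * ε * lg n := by
            have := Real.add_one_le_exp (-ε * Real.log n)
            nlinarith
          have h12 : 0 ≤ 1 - Real.exp (-ε * Real.log n) := by
            have : Real.exp (-ε * Real.log n) ≤ 1 := by
              rw [Real.exp_le_one_iff]
              nlinarith
            linarith
          calc Real.exp (-ε * Real.log n) / n * (1 - Real.exp (-ε * Real.log n))
              ≤ Real.exp (-ε * lg n) / n * (2 * ε * lg n) := by gcongr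
            _ = _ := by ring
        · simp only [h5, and_false, if_false, le_refl]
      · have h5 : wt ε n = 0 := by
          unfold wt
          rw [if_neg hp]
        simp only [h5, hp, false_and, if_false, zero_mul, ite_self, le_refl]
    refine h4.trans ?_
    have hF : ∀ p ∈ F.filter (fun n => n.Prime ∧ 3 ≤ n), p.Prime ∧ 1 ≤ lg p := by
      intro p hp
      rw [mem_filter] at hp
      refine ⟨hp.2.1, Nat.le_floor ?_⟩
      rw [Nat.cast_one, Real.le_log_iff_exp_le (by exact_mod_cast hp.2.1.pos)]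
      have := Real.exp_one_lt_d9
      have h6 : (3 : ℝ) ≤ p := by exact_mod_cast hp.2.2
      linarith
    refine (sum_inv_le2 le_rfl hF (fun k : ℕ => 2 * ε * k * Real.exp (-ε * k))
      (fun k => by positivity)).trans ?_
    set G := (F.filter (fun n => n.Prime ∧ 3 ≤ n)).image lg with hG
    have hgeo : Summable fun k : ℕ => Real.exp (-ε) ^ k :=
      summable_geometric_of_lt_one (Real.exp_pos _).le (by rw [Real.exp_lt_one_iff]; linarith)
    calc ∑ l ∈ G, CC / l * (2 * ε * l * Real.exp (-ε * l))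
        ≤ ∑ l ∈ G, 2 * CC * ε * Real.exp (-ε) ^ l := by
          refine sum_le_sum fun l hl => ?_
          obtain ⟨q, hq, hql⟩ := mem_image.1 hl
          have hl0 : (0 : ℝ) < l := by
            have := (hF q hq).2
            rw [hql] at this
            exact_mod_cast this
          have h5 : Real.exp (-ε * l) = Real.exp (-ε) ^ l := by
            rw [← Real.exp_nat_mul]
            congr 1
            ring
          rw [h5]
          apply le_of_eq
          field_simp
      _ = 2 * CC * ε * ∑ l ∈ G, Real.exp (-ε) ^ l := by rw [mul_sum]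
      _ ≤ 2 * CC * ε * (1 - Real.exp (-ε))⁻¹ := by
          refine mul_le_mul_of_nonneg_left ?_ (by positivity)
          refine (hgeo.sum_le_tsum G fun k _ => by positivity).trans ?_
          rw [tsum_geometric_of_lt_one (Real.exp_pos _).le (by rw [Real.exp_lt_one_iff]; linarith)]
      _ ≤ 2 * CC * ε * (4 / ε) := by
          refine mul_le_mul_of_nonneg_left ?_ (by positivity)
          have h6 : ε / 4 ≤ 1 - Real.exp (-ε) := by
            have h7 : Real.exp (-ε) ≤ 1 / (1 + ε) := by
              rw [Real.exp_neg, ← one_div]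
              refine one_div_le_one_div_of_le (by linarith) ?_
              have := Real.add_one_le_exp ε
              linarith
            have h8 : 1 / (1 + ε) ≤ 1 - ε / 4 := by
              rw [div_le_iff₀ (by linarith)]
              nlinarith
            linarith
          have h7 : (1 - Real.exp (-ε))⁻¹ ≤ (ε / 4)⁻¹ := inv_anti₀ (by positivity) h6
          refine h7.trans (le_of_eq ?_)
          field_simp
      _ = 8 * CC := by
          field_simp
          ring
  have h4 := sum_filter_add_sum_filter_not F (fun n => 3 ≤ n)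
    (fun n => wt ε n * (1 - Real.exp (-ε * Real.log n)))
  linarith

/-- The sum over the primes of a function of `p^{-ε}`. -/
noncomputable def PS (a : ℕ → ℂ) (g : ℝ → ℝ) (ε : ℝ) : ℂ :=
  ∑' n : ℕ, cf a n * ((g (Real.exp (-ε * Real.log n)) : ℝ) : ℂ)

lemma exp_mem {ε : ℝ} (hε : 0 < ε) (n : ℕ) : Real.exp (-ε * Real.log n) ∈ Set.Icc (0 : ℝ) 1 := by
  refine ⟨(Real.exp_pos _).le, ?_⟩
  rw [Real.exp_le_one_iff]
  have := Real.log_natCast_nonneg n
  nlinarith

/-- Summability for functions bounded by `C u`. -/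
lemma PS_summable {a : ℕ → ℂ} {D : ℝ} (hD : 0 ≤ D) (ha : ∀ p, ‖a p‖ ≤ D) {g : ℝ → ℝ} {C : ℝ}
    (hg : ∀ u ∈ Set.Icc (0 : ℝ) 1, |g u| ≤ C * u) {ε : ℝ} (hε : 0 < ε) :
    Summable fun n : ℕ => cf a n * ((g (Real.exp (-ε * Real.log n)) : ℝ) : ℂ) := by
  refine Summable.of_norm_bounded ((wt_summable hε).mul_left (D * C)) fun n => ?_
  rw [norm_mul, Complex.norm_real, Real.norm_eq_abs]
  have h1 := hg _ (exp_mem hε n)
  unfold cf wt
  split_ifs with hp
  · have hn0 : (0 : ℝ) < n := by exact_mod_cast hp.pos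
    rw [norm_div, Complex.norm_natCast]
    calc ‖a n‖ / n * |g (Real.exp (-ε * Real.log n))|
        ≤ D / n * (C * Real.exp (-ε * Real.log n)) := by
          have := ha n
          gcongr
      _ = _ := by ring
  · simp

/-- The difference of two such sums. -/
lemma PS_sub_le {a : ℕ → ℂ} {D : ℝ} (hD : 0 ≤ D) (ha : ∀ p, ‖a p‖ ≤ D) {g₁ g₂ : ℝ → ℝ}
    {C₁ C₂ δ : ℝ} (hg₁ : ∀ u ∈ Set.Icc (0 : ℝ) 1, |g₁ u| ≤ C₁ * u)
    (hg₂ : ∀ u ∈ Set.Icc (0 : ℝ) 1, |g₂ u| ≤ C₂ * u)
    (hd : ∀ u ∈ Set.Icc (0 : ℝ) 1, |g₁ u - g₂ u| ≤ δ * (u * (1 - u))) {ε : ℝ}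
    (hε : 0 < ε) (hε1 : ε ≤ 1) (hδ : 0 ≤ δ) :
    ‖PS a g₁ ε - PS a g₂ ε‖ ≤ D * δ * (8 * CC + 1) := by
  unfold PS
  rw [← (PS_summable hD ha hg₁ hε).tsum_sub (PS_summable hD ha hg₂ hε)]
  have h1 : ∀ F : Finset ℕ, ∑ n ∈ F, ‖cf a n * ((g₁ (Real.exp (-ε * Real.log n)) : ℝ) : ℂ) -
      cf a n * ((g₂ (Real.exp (-ε * Real.log n)) : ℝ) : ℂ)‖ ≤ D * δ * (8 * CC + 1) := by
    intro F
    calc ∑ n ∈ F, ‖cf a n * ((g₁ (Real.exp (-ε * Real.log n)) : ℝ) : ℂ) -
          cf a n * ((g₂ (Real.exp (-ε * Real.log n)) : ℝ) : ℂ)‖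
        ≤ ∑ n ∈ F, D * δ * (wt ε n * (1 - Real.exp (-ε * Real.log n))) := by
          refine sum_le_sum fun n _ => ?_
          rw [← mul_sub, ← Complex.ofReal_sub, norm_mul, Complex.norm_real, Real.norm_eq_abs]
          have h2 := hd _ (exp_mem hε n)
          unfold cf wt
          split_ifs with hp
          · have hn0 : (0 : ℝ) < n := by exact_mod_cast hp.pos
            rw [norm_div, Complex.norm_natCast]
            calc ‖a n‖ / n * |g₁ (Real.exp (-ε * Real.log n)) - g₂ (Real.exp (-ε * Real.log n))|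
                ≤ D / n * (δ * (Real.exp (-ε * Real.log n) *
                  (1 - Real.exp (-ε * Real.log n)))) := by
                  have := ha n
                  gcongr
              _ = _ := by ring
          · simp
      _ = D * δ * ∑ n ∈ F, wt ε n * (1 - Real.exp (-ε * Real.log n)) := by rw [mul_sum]
      _ ≤ D * δ * (8 * CC + 1) :=
          mul_le_mul_of_nonneg_left (weight_bound F hε hε1) (by positivity)
  have h2 : Summable fun n : ℕ => ‖cf a n * ((g₁ (Real.exp (-ε * Real.log n)) : ℝ) : ℂ) -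
      cf a n * ((g₂ (Real.exp (-ε * Real.log n)) : ℝ) : ℂ)‖ :=
    summable_of_sum_le (fun _ => norm_nonneg _) h1
  refine (norm_tsum_le_tsum_norm h2).trans ?_
  exact Real.tsum_le_of_sum_le (fun _ => norm_nonneg _) h1

end Pool.Agent.R385.TA
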