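import Pool.Agent.R385.TA.Taub

/-!
# The Tauberian theorem
-/

set_option autoImplicit false

namespace Pool.Agent.R385.TA

open Filter Topology MeasureTheory Finset Pool.Agent.W350.Edge Pool.Agent.R385.MC Polynomial

/-- The value of the prime sum on the real axis. -/
lemma gg_real (a : ℕ → ℂ) (ε : ℝ) :
    gg a (-(Complex.I * ε)) = ∑' n : ℕ, cf a n * ((Real.exp (-ε * Real.log n) : ℝ) : ℂ) := by
  unfold gg
  refine tsum_congr fun n => ?_
  congr 1
  rw [Complex.ofReal_exp]
  congr 1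
  push_cast
  linear_combination ((ε : ℂ) * Complex.log n) * Complex.I_mul_I

/-- The sum for a polynomial. -/
lemma PS_poly {a : ℕ → ℂ} {D : ℝ} (hD : 0 ≤ D) (ha : ∀ p, ‖a p‖ ≤ D) (q : ℝ[X]) {ε : ℝ}
    (hε : 0 < ε) : PS a (fun u => u * q.eval u) ε =
      ∑ k ∈ range (q.natDegree + 1), (q.coeff k : ℂ) * gg a (-(Complex.I * ((k + 1) * ε : ℝ))) := by
  unfold PS
  have h1 : ∀ n : ℕ, cf a n * (((fun u => u * q.eval u) (Real.exp (-ε * Real.log n)) : ℝ) : ℂ) =
      ∑ k ∈ range (q.natDegree + 1), (q.coeff k : ℂ) *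
        (cf a n * ((Real.exp (-((k + 1) * ε) * Real.log n) : ℝ) : ℂ)) := by
    intro n
    simp only
    rw [Polynomial.eval_eq_sum_range, mul_sum]
    push_cast
    rw [mul_sum]
    refine sum_congr rfl fun k _ => ?_
    have h2 : Complex.exp (-(((k : ℂ) + 1) * ε) * Complex.log n) =
        Complex.exp (-ε * Complex.log n) * Complex.exp (-ε * Complex.log n) ^ k := by
      rw [← Complex.exp_nat_mul, ← Complex.exp_add]
      congr 1
      ring
    rw [h2]
    ring
  rw [tsum_congr h1, Summable.tsum_finsetSum]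
  · refine sum_congr rfl fun k _ => ?_
    rw [tsum_mul_left, gg_real]
  · intro k _
    refine Summable.mul_left _ ?_
    have h2 : ∀ u ∈ Set.Icc (0 : ℝ) 1, |(fun u : ℝ => u) u| ≤ 1 * u := by
      intro u hu
      rw [one_mul]
      exact (abs_of_nonneg hu.1).le
    exact PS_summable hD ha h2 (by positivity : 0 < ((k : ℝ) + 1) * ε)

/-- The limit for a polynomial. -/
lemma PS_poly_lim {a : ℕ → ℂ} {D : ℝ} (hD : 0 ≤ D) (ha : ∀ p, ‖a p‖ ≤ D) (q : ℝ[X]) {l : ℂ}
    (hl : Tendsto (fun ε : ℝ => gg a (-(Complex.I * ε))) (𝓝[>] 0) (𝓝 l)) :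
    Tendsto (PS a (fun u => u * q.eval u)) (𝓝[>] 0) (𝓝 ((q.eval 1 : ℝ) * l)) := by
  have h1 : Tendsto (fun ε : ℝ => ∑ k ∈ range (q.natDegree + 1),
      (q.coeff k : ℂ) * gg a (-(Complex.I * ((k + 1) * ε : ℝ)))) (𝓝[>] 0)
      (𝓝 (∑ k ∈ range (q.natDegree + 1), (q.coeff k : ℂ) * l)) := by
    refine tendsto_finsetSum _ fun k _ => Tendsto.const_mul _ ?_
    have h2 : Tendsto (fun ε : ℝ => ((k : ℝ) + 1) * ε) (𝓝[>] 0) (𝓝[>] 0) := by
      refine tendsto_nhdsWithin_iff.2 ⟨?_, ?_⟩
      · have h3 : Continuous fun ε : ℝ => ((k : ℝ) + 1) * ε := by fun_prop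
        have h4 := h3.tendsto 0
        rw [mul_zero] at h4
        exact h4.mono_left nhdsWithin_le_nhds
      · filter_upwards [self_mem_nhdsWithin] with ε hε
        have hε' : 0 < ε := hε
        show 0 < ((k : ℝ) + 1) * ε
        positivity
    exact hl.comp h2
  rw [← sum_mul] at h1
  have h3 : (∑ k ∈ range (q.natDegree + 1), (q.coeff k : ℂ)) = ((q.eval 1 : ℝ) : ℂ) := by
    rw [Polynomial.eval_eq_sum_range]
    push_cast
    simp
  rw [h3] at h1
  refine h1.congr' ?_
  filter_upwards [self_mem_nhdsWithin] with ε hε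
  exact (PS_poly hD ha q hε).symm

/-- The cut-off function. -/
noncomputable def th (u₁ u₂ u : ℝ) : ℝ := max 0 (min 1 ((u - u₁) / (u₂ - u₁)))

lemma th_nonneg (u₁ u₂ u : ℝ) : 0 ≤ th u₁ u₂ u := le_max_left _ _

lemma th_le_one (u₁ u₂ u : ℝ) : th u₁ u₂ u ≤ 1 := max_le zero_le_one (min_le_left _ _)

lemma th_zero {u₁ u₂ u : ℝ} (h : u₁ < u₂) (hu : u ≤ u₁) : th u₁ u₂ u = 0 := by
  unfold th
  refine max_eq_left ((min_le_right _ _).trans ?_)
  exact div_nonpos_of_nonpos_of_nonneg (by linarith) (by linarith)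

lemma th_one {u₁ u₂ u : ℝ} (h : u₁ < u₂) (hu : u₂ ≤ u) : th u₁ u₂ u = 1 := by
  unfold th
  have : 1 ≤ (u - u₁) / (u₂ - u₁) := by
    rw [le_div_iff₀ (by linarith)]
    linarith
  rw [min_eq_left this, max_eq_right zero_le_one]

lemma th_continuous (u₁ u₂ : ℝ) : Continuous (th u₁ u₂) := by
  unfold th
  fun_prop

/-- The quotient `(th - u) / (u (1 - u))`. -/
noncomputable def hq (u₁ u₂ u : ℝ) : ℝ :=
  th u₁ u₂ u / max u u₁ - (1 - th u₁ u₂ u) / (1 - min u u₂)

lemma hq_continuous {u₁ u₂ : ℝ} (h1 : 0 < u₁) (h2 : u₂ < 1) : Continuous (hq u₁ u₂) := by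
  unfold hq
  refine Continuous.sub ?_ ?_
  · refine (th_continuous _ _).div (by fun_prop) fun u => ?_
    have : u₁ ≤ max u u₁ := le_max_right _ _
    linarith
  · refine (continuous_const.sub (th_continuous _ _)).div (by fun_prop) fun u => ?_
    have : min u u₂ ≤ u₂ := min_le_right _ _
    linarith

lemma th_eq {u₁ u₂ : ℝ} (h1 : 0 < u₁) (h12 : u₁ < u₂) (h2 : u₂ < 1) (u : ℝ) :
    th u₁ u₂ u = u + u * (1 - u) * hq u₁ u₂ u := by
  unfold hq
  rcases le_or_gt u u₁ with h | h
  · rw [th_zero h12 h, min_eq_left (by linarith)]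
    have : 1 - u ≠ 0 := by linarith
    field_simp
    ring
  · rcases le_or_gt u₂ u with h' | h'
    · rw [th_one h12 h', max_eq_left h.le]
      have : u ≠ 0 := by linarith
      field_simp
      ring
    · rw [max_eq_left h.le, min_eq_left h'.le]
      have : u ≠ 0 := by linarith
      have : 1 - u ≠ 0 := by linarith
      field_simp
      ring

lemma th_bound {u₁ u₂ : ℝ} (h1 : 0 < u₁) (h12 : u₁ < u₂) :
    ∀ u ∈ Set.Icc (0 : ℝ) 1, |th u₁ u₂ u| ≤ 1 / u₁ * u := by
  intro u hu
  rw [abs_of_nonneg (th_nonneg _ _ _)]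
  rcases le_or_gt u u₁ with h | h
  · rw [th_zero h12 h]
    have := hu.1
    positivity
  · refine (th_le_one _ _ _).trans ?_
    rw [one_div, ← div_eq_inv_mul, le_div_iff₀ h1]
    linarith

/-- The limit for the cut-off function. -/
lemma PS_th_lim {a : ℕ → ℂ} {D : ℝ} (hD : 0 ≤ D) (ha : ∀ p, ‖a p‖ ≤ D) {u₁ u₂ : ℝ}
    (h1 : 0 < u₁) (h12 : u₁ < u₂) (h2 : u₂ < 1) {l : ℂ}
    (hl : Tendsto (fun ε : ℝ => gg a (-(Complex.I * ε))) (𝓝[>] 0) (𝓝 l)) :
    Tendsto (PS a (th u₁ u₂)) (𝓝[>] 0) (𝓝 l) := by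
  rw [Metric.tendsto_nhds]
  intro η hη
  have hC := CC_pos
  set δ : ℝ := η / (2 * ((D + 1) * (8 * CC + 1))) with hδ
  have hδ0 : 0 < δ := by positivity
  obtain ⟨R, hR⟩ := exists_polynomial_near_of_continuousOn 0 1 (hq u₁ u₂)
    (hq_continuous h1 h2).continuousOn δ hδ0
  set q : ℝ[X] := 1 + (1 - X) * R with hqd
  have hq1 : q.eval 1 = 1 := by simp [hqd]
  have hlim := PS_poly_lim hD ha q hl
  rw [hq1, Complex.ofReal_one, one_mul, Metric.tendsto_nhds] at hlim
  have hev := hlim (η / 2) (by positivity)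
  have hle : ∀ᶠ ε : ℝ in 𝓝[>] 0, ε ≤ 1 := by
    refine nhdsWithin_le_nhds ?_
    exact Iic_mem_nhds one_pos
  -- bounds
  obtain ⟨C₂, hC₂⟩ : ∃ C₂ : ℝ, ∀ u ∈ Set.Icc (0 : ℝ) 1, |(fun u => u * q.eval u) u| ≤ C₂ * u := by
    obtain ⟨C, hC⟩ := isCompact_Icc.exists_bound_of_continuousOn (s := Set.Icc (0 : ℝ) 1)
      (f := fun u : ℝ => q.eval u) q.continuous.continuousOn
    refine ⟨C, fun u hu => ?_⟩
    have h3 := hC u hu
    rw [Real.norm_eq_abs] at h3
    simp only
    rw [abs_mul, abs_of_nonneg hu.1, mul_comm]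
    exact mul_le_mul_of_nonneg_right h3 hu.1
  have hdiff : ∀ u ∈ Set.Icc (0 : ℝ) 1, |th u₁ u₂ u - (fun u => u * q.eval u) u| ≤
      δ * (u * (1 - u)) := by
    intro u hu
    have h3 := hR u hu
    have h4 : th u₁ u₂ u - (fun u => u * q.eval u) u =
        u * (1 - u) * (hq u₁ u₂ u - R.eval u) := by
      rw [th_eq h1 h12 h2 u, hqd]
      simp only [Polynomial.eval_add, Polynomial.eval_one, Polynomial.eval_mul,
        Polynomial.eval_sub, Polynomial.eval_X]
      ring
    have h5 : 0 ≤ u * (1 - u) := mul_nonneg hu.1 (by linarith [hu.2])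
    rw [h4, abs_mul, abs_of_nonneg h5, mul_comm, abs_sub_comm]
    exact mul_le_mul_of_nonneg_right h3.le h5
  filter_upwards [hev, hle, self_mem_nhdsWithin] with ε e1 e2 e3
  have e4 := PS_sub_le hD ha (th_bound h1 h12) hC₂ hdiff e3 e2 hδ0.le
  rw [dist_eq_norm] at e1 ⊢
  calc ‖PS a (th u₁ u₂) ε - l‖ = ‖(PS a (th u₁ u₂) ε - PS a (fun u => u * q.eval u) ε) +
        (PS a (fun u => u * q.eval u) ε - l)‖ := by ring_nf
    _ ≤ ‖PS a (th u₁ u₂) ε - PS a (fun u => u * q.eval u) ε‖ +
        ‖PS a (fun u => u * q.eval u) ε - l‖ := norm_add_le _ _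
    _ < D * δ * (8 * CC + 1) + η / 2 := by linarith
    _ ≤ η := by
        have : D * δ * (8 * CC + 1) ≤ η / 2 := by
          have h3 : D * δ * (8 * CC + 1) = η / 2 * (D / (D + 1)) := by
            rw [hδ]
            field_simp
          have h4 : D / (D + 1) ≤ 1 := by
            rw [div_le_one (by positivity)]
            linarith
          rw [h3]
          nlinarith
        linarith

/-- The cut-off sum and the partial sum. -/
lemma PS_th_sub {a : ℕ → ℂ} {D : ℝ} (hD : 0 ≤ D) (ha : ∀ p, ‖a p‖ ≤ D) {η : ℝ} (hη : 0 < η)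
    {x : ℕ} (hx : 3 ≤ x) :
    ‖PS a (th (Real.exp (-(1 + η))) (Real.exp (-1))) (1 / Real.log x) - ps a 0 x‖ ≤
      D * CC * ((η * Real.log x + 3) / lg x) := by
  have hC := CC_pos
  have hx0 : (0 : ℝ) < x := by positivity
  have hx3 : (3 : ℝ) ≤ x := by exact_mod_cast hx
  have hlog1 : 1 ≤ Real.log x := by
    rw [Real.le_log_iff_exp_le hx0]
    have := Real.exp_one_lt_d9
    linarith
  have hlg : 1 ≤ lg x := Nat.le_floor (by rw [Nat.cast_one]; exact hlog1)
  have hlg0 : (0 : ℝ) < lg x := by exact_mod_cast hlg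
  set L := Real.log x with hL
  have h12 : Real.exp (-(1 + η)) < Real.exp (-1) := Real.exp_lt_exp.2 (by linarith)
  set Y : ℕ := ⌈Real.exp ((1 + η) * L)⌉₊ with hY
  set F : Finset ℕ := (Ico x Y).filter Nat.Prime with hF
  set t : ℝ → ℝ := th (Real.exp (-(1 + η))) (Real.exp (-1)) with ht
  have hsum := PS_summable hD ha (th_bound (Real.exp_pos _) h12) (by positivity : 0 < 1 / L)
  have hps : ps a 0 x = ∑' n : ℕ, (if n < x then cf a n else 0) := by
    rw [ps_eq, tsum_eq_sum (s := range x)]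
    · refine sum_congr rfl fun n hn => ?_
      rw [if_pos (mem_range.1 hn)]
      simp
    · intro n hn
      rw [mem_range] at hn
      rw [if_neg hn]
  have hsum2 : Summable fun n : ℕ => (if n < x then cf a n else 0) := by
    refine summable_of_ne_finset_zero (s := range x) fun n hn => ?_
    rw [mem_range] at hn
    rw [if_neg hn]
  unfold PS
  rw [hps, ← hsum.tsum_sub hsum2]
  have hzero : ∀ n, n ∉ F → cf a n * ((t (Real.exp (-(1 / L) * Real.log n)) : ℝ) : ℂ) -
      (if n < x then cf a n else 0) = 0 := by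
    intro n hn
    by_cases hp : n.Prime
    · have hn0 : (0 : ℝ) < n := by exact_mod_cast hp.pos
      rcases lt_or_ge n x with h | h
      · have h3 : Real.exp (-1) ≤ Real.exp (-(1 / L) * Real.log n) := by
          refine Real.exp_le_exp.2 ?_
          have h4 : Real.log n ≤ L := Real.log_le_log hn0 (by exact_mod_cast h.le)
          have h5 : 1 / L * Real.log n ≤ 1 := by
            rw [one_div, ← div_eq_inv_mul, div_le_one (by linarith)]
            exact h4
          linarith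
        rw [if_pos h, ht, th_one h12 h3]
        simp
      · have h3 : Y ≤ n := by
          by_contra h4
          refine hn ?_
          rw [hF, mem_filter, mem_Ico]
          exact ⟨⟨h, by omega⟩, hp⟩
        have h4 : Real.exp (-(1 / L) * Real.log n) ≤ Real.exp (-(1 + η)) := by
          refine Real.exp_le_exp.2 ?_
          have h5 : Real.exp ((1 + η) * L) ≤ n := (Nat.le_ceil _).trans (by exact_mod_cast h3)
          have h6 : (1 + η) * L ≤ Real.log n := (Real.le_log_iff_exp_le hn0).2 h5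
          have h7 : 1 + η ≤ 1 / L * Real.log n := by
            rw [one_div, ← div_eq_inv_mul, le_div_iff₀ (by linarith)]
            exact h6
          linarith
        rw [if_neg (by omega), ht, th_zero h12 h4]
        simp
    · have : cf a n = 0 := by
        unfold cf
        rw [if_neg hp]
      rw [this]
      simp
  rw [tsum_eq_sum (s := F) fun n hn => hzero n hn]
  have hFp : ∀ p ∈ F, p.Prime ∧ lg x ≤ lg p := by
    intro p hp
    rw [hF, mem_filter, mem_Ico] at hp
    refine ⟨hp.2, ?_⟩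
    unfold lg
    refine Nat.floor_mono (Real.log_le_log hx0 (by exact_mod_cast hp.1.1))
  calc ‖∑ n ∈ F, (cf a n * ((t (Real.exp (-(1 / L) * Real.log n)) : ℝ) : ℂ) -
        (if n < x then cf a n else 0))‖
      ≤ ∑ n ∈ F, D * ((1 : ℝ) / n * (fun _ : ℕ => (1 : ℝ)) (lg n)) := by
        refine (norm_sum_le _ _).trans (sum_le_sum fun n hn => ?_)
        have h3 : ¬ n < x := by
          rw [hF, mem_filter, mem_Ico] at hn
          omega
        rw [if_neg h3, sub_zero, norm_mul, Complex.norm_real, Real.norm_eq_abs]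
        have h4 := norm_cf hD ha n
        have h5 : |t (Real.exp (-(1 / L) * Real.log n))| ≤ 1 := by
          rw [ht, abs_of_nonneg (th_nonneg _ _ _)]
          exact th_le_one _ _ _
        calc ‖cf a n‖ * |t (Real.exp (-(1 / L) * Real.log n))| ≤ D / n * 1 := by gcongr
          _ = _ := by ring
    _ = D * ∑ n ∈ F, ((1 : ℝ) / n * (fun _ : ℕ => (1 : ℝ)) (lg n)) := by rw [mul_sum]
    _ ≤ D * ∑ l ∈ F.image lg, CC / l * 1 := by
        refine mul_le_mul_of_nonneg_left ?_ hD
        exact sum_inv_le2 hlg hFp (fun _ => 1) (fun _ => zero_le_one)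
    _ ≤ D * ∑ _l ∈ F.image lg, CC / lg x := by
        refine mul_le_mul_of_nonneg_left (sum_le_sum fun l hl => ?_) hD
        obtain ⟨q, hq, hql⟩ := mem_image.1 hl
        have h3 : (lg x : ℝ) ≤ l := by
          rw [← hql]
          exact_mod_cast (hFp q hq).2
        rw [mul_one]
        exact div_le_div_of_nonneg_left hC.le hlg0 h3
    _ = D * ((F.image lg).card * (CC / lg x)) := by rw [sum_const, nsmul_eq_mul]
    _ ≤ D * ((η * L + 3) * (CC / lg x)) := by
        refine mul_le_mul_of_nonneg_left (mul_le_mul_of_nonneg_right ?_ (by positivity)) hD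
        have h3 : F.image lg ⊆ Ico (lg x) (⌊(1 + η) * L⌋₊ + 1) := by
          intro l hl
          obtain ⟨q, hq, hql⟩ := mem_image.1 hl
          have hq' := hFp q hq
          rw [hF, mem_filter, mem_Ico] at hq
          rw [mem_Ico, ← hql]
          refine ⟨hq'.2, ?_⟩
          have hq0 : (0 : ℝ) < q := by exact_mod_cast hq.2.pos
          have h4 : (q : ℝ) < Real.exp ((1 + η) * L) := Nat.lt_ceil.1 hq.1.2
          have h5 : Real.log q < (1 + η) * L := (Real.log_lt_iff_lt_exp hq0).2 h4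
          have h6 : lg q ≤ ⌊(1 + η) * L⌋₊ := Nat.floor_mono h5.le
          omega
        have h4 := card_le_card h3
        rw [Nat.card_Ico] at h4
        have h5 : ((F.image lg).card : ℝ) ≤ ((⌊(1 + η) * L⌋₊ + 1 - lg x : ℕ) : ℝ) := by
          exact_mod_cast h4
        have h6 : ((⌊(1 + η) * L⌋₊ + 1 - lg x : ℕ) : ℝ) ≤ ⌊(1 + η) * L⌋₊ + 1 - lg x := by
          have h7 : lg x ≤ ⌊(1 + η) * L⌋₊ + 1 := by
            have : lg x ≤ ⌊(1 + η) * L⌋₊ := Nat.floor_mono (by nlinarith)
            omega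
          rw [Nat.cast_sub h7]
          push_cast
          exact le_rfl
        have h7 : (⌊(1 + η) * L⌋₊ : ℝ) ≤ (1 + η) * L := Nat.floor_le (by positivity)
        have h8 := lt_lg x
        rw [← hL] at h8
        nlinarith
    _ = D * CC * ((η * L + 3) / lg x) := by ring

/-- **The Tauberian theorem.** -/
theorem tauber {a : ℕ → ℂ} {D : ℝ} (hD : 0 ≤ D) (ha : ∀ p, ‖a p‖ ≤ D) {l : ℂ}
    (hl : Tendsto (fun ε : ℝ => gg a (-(Complex.I * ε))) (𝓝[>] 0) (𝓝 l)) :
    Tendsto (fun x : ℕ => ps a 0 x) atTop (𝓝 l) := by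
  have hC := CC_pos
  rw [Metric.tendsto_nhds]
  intro δ hδ
  set η : ℝ := δ / (8 * ((D + 1) * CC)) with hη
  have hη0 : 0 < η := by positivity
  have h12 : Real.exp (-(1 + η)) < Real.exp (-1) := Real.exp_lt_exp.2 (by linarith)
  have h2 : Real.exp (-1) < 1 := by
    rw [Real.exp_lt_one_iff]
    norm_num
  have hlim := PS_th_lim hD ha (Real.exp_pos (-(1 + η))) h12 h2 hl
  have hlog : Tendsto (fun x : ℕ => Real.log x) atTop atTop :=
    Real.tendsto_log_atTop.comp tendsto_natCast_atTop_atTop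
  have hinv : Tendsto (fun x : ℕ => 1 / Real.log x) atTop (𝓝[>] 0) := by
    refine tendsto_nhdsWithin_iff.2 ⟨hlog.const_div_atTop 1, ?_⟩
    filter_upwards [hlog.eventually_gt_atTop 0] with x hx
    show 0 < 1 / Real.log x
    positivity
  have h3 := hlim.comp hinv
  rw [Metric.tendsto_nhds] at h3
  have h4 := h3 (δ / 4) (by positivity)
  have h5 : ∀ᶠ x : ℕ in atTop, D * CC * ((η * Real.log x + 3) / lg x) ≤ δ / 2 := by
    have h6 := hlog.eventually_ge_atTop (max 2 (3 * (2 * (D + 1) * CC) * 4 / δ + 3))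
    filter_upwards [h6] with x hx
    set L := Real.log x
    have h7 : 2 ≤ L := (le_max_left _ _).trans hx
    have h8 : 3 * (2 * (D + 1) * CC) * 4 / δ + 3 ≤ L := (le_max_right _ _).trans hx
    have h9 := lt_lg x
    have h10 : L / 2 ≤ lg x := by linarith
    have h11 : (0 : ℝ) < lg x := by linarith
    calc D * CC * ((η * L + 3) / lg x) ≤ (D + 1) * CC * ((η * L + 3) / (L / 2)) := by
          gcongr
          linarith
      _ = (D + 1) * CC * (2 * η) + (D + 1) * CC * 6 / L := by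
          field_simp
          ring
      _ ≤ δ / 2 := by
          have e1 : (D + 1) * CC * (2 * η) = δ / 4 := by
            rw [hη]
            field_simp
            ring
          have e2 : (D + 1) * CC * 6 / L ≤ δ / 4 := by
            have hL0 : 0 < L := by linarith
            rw [div_le_iff₀ hL0]
            have e3 : 3 * (2 * (D + 1) * CC) * 4 / δ ≤ L := by linarith
            rw [div_le_iff₀ hδ] at e3
            linarith
          linarith
  have h6 : ∀ᶠ x : ℕ in atTop, 3 ≤ x := eventually_ge_atTop 3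
  filter_upwards [h4, h5, h6] with x e1 e2 e3
  have e4 := PS_th_sub hD ha hη0 e3
  rw [dist_eq_norm] at e1 ⊢
  simp only [Function.comp_apply] at e1
  calc ‖ps a 0 x - l‖ = ‖-(PS a (th (Real.exp (-(1 + η))) (Real.exp (-1))) (1 / Real.log x) -
        ps a 0 x) + (PS a (th (Real.exp (-(1 + η))) (Real.exp (-1))) (1 / Real.log x) - l)‖ := by
        ring_nf
    _ ≤ ‖-(PS a (th (Real.exp (-(1 + η))) (Real.exp (-1))) (1 / Real.log x) -
        ps a 0 x)‖ + ‖PS a (th (Real.exp (-(1 + η))) (Real.exp (-1))) (1 / Real.log x) - l‖ :=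
        norm_add_le _ _
    _ < δ := by
        rw [norm_neg]
        linarith

end Pool.Agent.R385.TA
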